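import Pool.Agent.Y230.TH.Stm2

set_option autoImplicit false
set_option linter.unusedSectionVars false
set_option linter.unusedVariables false

/-! # Plane curves at the points `T0` with `|T0| = p`, `T0 ≠ p` -/

namespace Pool.Agent.Y465.TH

open Pool.Agent.W574.SM Pool.Agent.Y230.PT Pool.Agent.Y230.RE Pool.Agent.Y230.PL Polynomial

variable {p : ℕ} [Fact p.Prime] {T0 : ℂ}

section Arith

theorem crit_eq (hT : ‖T0‖ = p) {a n : ℕ} (h : Crit p T0 a n) : a = n := by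
  have h1 := congrArg norm h
  rw [norm_pow, norm_pow, Complex.norm_natCast, hT] at h1
  have h2 : p ^ a = p ^ n := by exact_mod_cast h1
  exact Nat.pow_right_injective (Fact.out : p.Prime).two_le h2

theorem not_crit1 (hT : ‖T0‖ = p) (hne : T0 ≠ p) (m : ℕ) : ¬ Crit p T0 m 1 := by
  intro h
  have h1 := crit_eq hT h
  rw [h1] at h
  unfold Crit at h
  rw [pow_one, pow_one] at h
  exact hne h

theorem ncE (hT : ‖T0‖ = p) (hne : T0 ≠ p) {d : Bool} {a n b k m : ℕ} (hm : 1 ≤ m)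
    (hd : d = false → a = 0 ∧ n = 1) (hd' : d = true → n ≤ a) (hbk : Crit p T0 b k)
    (h : Crit p T0 (b + (a + m)) (k + n)) : False := by
  rw [crit_add b k _ _ hbk] at h
  have h1 := crit_eq hT h
  cases d
  · obtain ⟨h2, h3⟩ := hd rfl
    rw [h3] at h
    exact not_crit1 hT hne _ h
  · have := hd' rfl
    omega

theorem cc_pd0 {k : Type} [Field k] (g : A k) :
    MvPolynomial.constantCoeff (MvPolynomial.pderiv 0 g) = MvPolynomial.coeff (ex 1 0) g := by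
  rw [MvPolynomial.constantCoeff_eq, MvPolynomial.coeff_pderiv]
  simp [ex]

theorem cc_pd1 {k : Type} [Field k] (g : A k) :
    MvPolynomial.constantCoeff (MvPolynomial.pderiv 1 g) = MvPolynomial.coeff (ex 0 1) g := by
  rw [MvPolynomial.constantCoeff_eq, MvPolynomial.coeff_pderiv]
  simp [ex]

theorem two_le {g g0 : Fin 1 → A ℚ_[p]} {m : ℕ} (hm : 1 ≤ m)
    (hgc : ∀ j, MvPolynomial.aeval (ch 0) (g j) = MvPolynomial.X 0 ^ m * g0 j)
    (hne : ∃ j, r0 (g0 j) ≠ 0)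
    (h0 : MvPolynomial.constantCoeff (MvPolynomial.pderiv 0 (g 0)) = 0)
    (h1 : MvPolynomial.constantCoeff (MvPolynomial.pderiv 1 (g 0)) = 0) : 2 ≤ m := by
  by_contra hlt
  have hm1 : m = 1 := by omega
  subst hm1
  obtain ⟨j, hj⟩ := hne
  have hj0 : j = 0 := Subsingleton.elim _ _
  subst hj0
  apply hj
  rw [r0_lead (hgc 0)]
  ext i
  rw [om_coeff, coeff_zero]
  split_ifs with hi
  · have hi' : i = 0 ∨ i = 1 := by omega
    rcases hi' with rfl | rfl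
    · exact (cc_pd0 _).symm.trans h0
    · exact (cc_pd1 _).symm.trans h1
  · rfl

end Arith

section Class

/-- the context of a singular point of a plane curve, at a point with `|T0| = p` -/
def CR (T0 : ℂ) (g : Fin 1 → A ℚ_[p]) (d0 d1 : Bool) (a0 n0 a1 n1 : ℕ) : Prop :=
  TC g d0 d1 a0 n0 a1 n1 ∧ (d0 = true → n0 ≤ a0) ∧ (d1 = true → n1 ≤ a1) ∧
    ¬ (Crit p T0 a0 n0 ∧ Crit p T0 a1 n1) ∧
    (d0 = false → d1 = false →
      MvPolynomial.constantCoeff (MvPolynomial.pderiv 0 (g 0)) = 0 ∧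
      MvPolynomial.constantCoeff (MvPolynomial.pderiv 1 (g 0)) = 0)

theorem closed_CR (hT : ‖T0‖ = p) (hne : T0 ≠ p) : Closed (CR (p := p) T0) where
  pos _ _ _ _ _ _ _ h := ⟨h.1.1, h.1.2.1⟩
  ty0 _ _ _ _ _ _ h := h.1.2.2.1 rfl
  ty1 _ _ _ _ _ _ h := h.1.2.2.2 rfl
  child g d0 d1 a0 n0 a1 n1 m gc gI hm hgc hgI hne' h := by
    obtain ⟨hT', h0, h1, hcr, hsing⟩ := h
    obtain ⟨t0, tc, tI⟩ := closed_TC.child g d0 d1 a0 n0 a1 n1 m gc gI hm hgc hgI hne' hT'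
    obtain ⟨hn0, hn1, hd0, hd1⟩ := hT'
    have hle : n0 + n1 ≤ a0 + a1 + m := by
      rcases Bool.eq_false_or_eq_true d0 with e0 | e0 <;>
        rcases Bool.eq_false_or_eq_true d1 with e1 | e1
      · have := h0 e0
        have := h1 e1
        omega
      · have := h0 e0
        have := hd1 e1
        omega
      · have := hd0 e0
        have := h1 e1
        omega
      · have := hd0 e0
        have := hd1 e1
        obtain ⟨s0, s1⟩ := hsing e0 e1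
        have := two_le hm (hgc 0) hne' s0 s1
        omega
    have hnc0 : ¬ (Crit p T0 (a0 + a1 + m) (n0 + n1) ∧ Crit p T0 a1 n1) := by
      rintro ⟨h3, h4⟩
      refine ncE hT hne hm hd0 h0 h4 ?_
      have e1 : a1 + (a0 + m) = a0 + a1 + m := by ring
      rw [e1, add_comm n1 n0]
      exact h3
    have hncI : ¬ (Crit p T0 a0 n0 ∧ Crit p T0 (a0 + a1 + m) (n0 + n1)) := by
      rintro ⟨h3, h4⟩
      refine ncE hT hne hm hd1 h1 h3 ?_
      rw [← add_assoc]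
      exact h4
    exact ⟨⟨t0, fun _ => hle, h1, hnc0, fun h => by simp at h⟩,
      fun c hc => ⟨tc c hc, fun _ => hle, fun h => by simp at h, fun h => not_crit01 h.2,
        fun h => by simp at h⟩,
      ⟨tI, h0, fun _ => hle, hncI, fun _ h => by simp at h⟩⟩

theorem hH0_CR (hT : ‖T0‖ = p) (hne : T0 ≠ p) {g : Fin 1 → A ℚ_[p]} {d0 d1 : Bool}
    {a0 n0 a1 n1 : ℕ} (hc : CR T0 g d0 d1 a0 n0 a1 n1) (h0 : Crit p T0 a0 n0) (ρ : ℕ) :
    ¬ Crit p T0 (a1 + ρ) n1 := by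
  intro h
  have e := crit_eq hT h
  obtain ⟨⟨hn0, hn1, hd0, hd1⟩, hle0, hle1, hnc, -⟩ := hc
  rcases Bool.eq_false_or_eq_true d1 with e1 | e1
  · have := hle1 e1
    have hρ : ρ = 0 := by omega
    rw [hρ, add_zero] at h
    exact hnc ⟨h0, h⟩
  · rw [(hd1 e1).2] at h
    exact not_crit1 hT hne _ h

theorem hH1_CR (hT : ‖T0‖ = p) (hne : T0 ≠ p) {g : Fin 1 → A ℚ_[p]} {d0 d1 : Bool}
    {a0 n0 a1 n1 : ℕ} (hc : CR T0 g d0 d1 a0 n0 a1 n1) (h1 : Crit p T0 a1 n1) (ρ : ℕ) :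
    ¬ Crit p T0 (a0 + ρ) n0 := by
  intro h
  have e := crit_eq hT h
  obtain ⟨⟨hn0, hn1, hd0, hd1⟩, hle0, hle1, hnc, -⟩ := hc
  rcases Bool.eq_false_or_eq_true d0 with e1 | e1
  · have := hle0 e1
    have hρ : ρ = 0 := by omega
    rw [hρ, add_zero] at h
    exact hnc ⟨h, h1⟩
  · rw [(hd0 e1).2] at h
    exact not_crit1 hT hne _ h

variable {ι : Type} [Fintype ι] [DecidableEq ι]

theorem closed_and {C1 C2 : (ι → A ℚ_[p]) → Bool → Bool → ℕ → ℕ → ℕ → ℕ → Prop}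
    (h1 : Closed C1) (h2 : Closed C2) :
    Closed (fun g d0 d1 a0 n0 a1 n1 => C1 g d0 d1 a0 n0 a1 n1 ∧ C2 g d0 d1 a0 n0 a1 n1) where
  pos g d0 d1 a0 n0 a1 n1 h := h1.pos g d0 d1 a0 n0 a1 n1 h.1
  ty0 g d1 a0 n0 a1 n1 h := h1.ty0 g d1 a0 n0 a1 n1 h.1
  ty1 g d0 a0 n0 a1 n1 h := h1.ty1 g d0 a0 n0 a1 n1 h.1
  child g d0 d1 a0 n0 a1 n1 m gc gI hm hgc hgI hne h := by
    obtain ⟨x0, xc, xI⟩ := h1.child g d0 d1 a0 n0 a1 n1 m gc gI hm hgc hgI hne h.1
    obtain ⟨y0, yc, yI⟩ := h2.child g d0 d1 a0 n0 a1 n1 m gc gI hm hgc hgI hne h.2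
    exact ⟨⟨x0, y0⟩, fun c hc => ⟨xc c hc, yc c hc⟩, ⟨xI, yI⟩⟩

/-- no crossing of critical curves over a complex point of the exceptional curve -/
theorem dz_child (φ : ℚ_[p] →+* ℂ) (r : ℂ) {g : ι → A ℚ_[p]} {d0 d1 : Bool}
    {a0 n0 a1 n1 m : ℕ} {gc : ℚ_[p] → ι → A ℚ_[p]} {gI : ι → A ℚ_[p]} (hm : 1 ≤ m)
    (hgc : ∀ c j, MvPolynomial.aeval (ch c) (g j) = MvPolynomial.X 0 ^ m * gc c j)
    (hgI : ∀ j, MvPolynomial.aeval chI (g j) = MvPolynomial.X 1 ^ m * gI j)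
    (hne : ∃ j, r0 (gc 0 j) ≠ 0)
    (h : DC φ r g d0 d1 a0 n0 a1 n1) (c : ℂ) (hc : c ≠ 0) :
    ¬ DZ r (fun j => gcC φ (gc 0) c j) (a0 + a1 + m) (n0 + n1) 0 1 := by
  obtain ⟨hT, hD, hgne, hr0, hr1⟩ := h
  obtain ⟨j0, hj0⟩ := hne
  have hP0 : res0 (gcC φ (gc 0) 0 j0) ≠ 0 := by
    rw [gcC_0 φ hgc, ← mp_r0, Ne, Polynomial.map_eq_zero]
    exact hj0
  -- restrictions
  have q0 : ∀ c, r0 (gc c j0) ≠ 0 := by
    intro c h
    rw [ch_shift (hgc 0 j0) (hgc c j0), r0_shift] at h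
    exact comp_ne _ c hj0 h
  have q1 : d1 = true → ∃ j, r1 (gc 0 j) ≠ 0 := by
    intro hd
    obtain ⟨j, hj⟩ := hr1 hd
    refine ⟨j, fun h => hj ?_⟩
    rw [r1_ch (hgc 0 j), h, mul_zero]
  have qI0 : d0 = true → ∃ j, r0 (gI j) ≠ 0 := by
    intro hd
    obtain ⟨j, hj⟩ := hr0 hd
    refine ⟨j, fun h => hj ?_⟩
    rw [r0_chI (hgI j), h, mul_zero]
  have qI1 : r1 (gI j0) ≠ 0 := by
    intro h
    apply hj0
    ext i
    rw [coeff_zero]
    have hd : (r0 (gc 0 j0)).natDegree ≤ m := by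
      rw [r0_lead (hgc 0 j0)]
      exact om_deg _ _
    by_cases hi : i ≤ m
    · have h2 := r1_lead' (hgc 0 j0) (hgI j0) (m - i) (Nat.sub_le _ _)
      rw [h, coeff_zero] at h2
      have h3 : m - (m - i) = i := by omega
      rw [h3] at h2
      exact h2.symm
    · exact coeff_eq_zero_of_natDegree_lt (by omega)
  -- the trees over the complex numbers
  have mpne : ∀ q : A ℚ_[p], q ≠ 0 → mp φ q ≠ 0 := fun q hq h => hq
    (MvPolynomial.map_injective φ φ.injective (by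
      rw [map_zero]; exact h))
  have mp0 : ∀ q : A ℚ_[p], r0 q ≠ 0 → r0 (k := ℂ) (mp φ q) ≠ 0 := fun q hq h => hq (by
    have h2 : res0 (mp φ q) = 0 := h
    rw [← mp_r0, Polynomial.map_eq_zero] at h2
    exact h2)
  have mp1 : ∀ q : A ℚ_[p], r1 q ≠ 0 → r1 (k := ℂ) (mp φ q) ≠ 0 := fun q hq h => hq (by
    have h2 : res1 (mp φ q) = 0 := h
    rw [← mp_r1, Polynomial.map_eq_zero] at h2
    exact h2)
  have g0eq : (fun j => mp φ (gc 0 j)) = fun j => gcC φ (gc 0) 0 j := by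
    funext j
    rw [gcC_0 φ hgc]
  have T0 : ∃ Λ, LT (fun j => gcC φ (gc 0) 0 j) (a0 + a1 + m) (n0 + n1) a1 n1 Λ := by
    rw [← g0eq]
    refine exists_LT (exists_KT (k := ℂ) (fun j => mp φ (gc 0 j)) true d1
      ⟨j0, mpne _ (fun h => q0 0 (by rw [h, map_zero]))⟩ (fun _ => ⟨j0, mp0 _ hj0⟩) (fun hd => ?_))
      _ _ _ _ (by simp) hT.2.2.2
    obtain ⟨j, hj⟩ := q1 hd
    exact ⟨j, mp1 _ hj⟩
  have Tc : ∀ c, c ≠ 0 → ∃ Λ, LT (fun j => gcC φ (gc 0) c j) (a0 + a1 + m) (n0 + n1) 0 1 Λ := by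
    intro c hc
    have hr : res0 (gcC φ (gc 0) c j0) ≠ 0 := by
      rw [res0_chart (mp φ (g j0)) (gcC φ (gc 0) 0 j0) (gcC φ (gc 0) c j0) m c
        (gcC_eq φ (hgc 0) 0 j0) (gcC_eq φ (hgc 0) c j0)]
      exact comp_ne _ c hP0
    exact exists_LT (exists_KT (k := ℂ) (fun j => gcC φ (gc 0) c j) true false
      ⟨j0, fun h => hr (by rw [h, map_zero])⟩ (fun _ => ⟨j0, hr⟩) (by simp)) _ _ _ _ (by simp)
      (fun _ => ⟨rfl, rfl⟩)
  have TI : ∃ Λ, LT (fun j => mp φ (gI j)) a0 n0 (a0 + a1 + m) (n0 + n1) Λ := by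
    refine exists_LT (exists_KT (k := ℂ) (fun j => mp φ (gI j)) d0 true
      ⟨j0, mpne _ (fun h => qI1 (by rw [h, map_zero]))⟩ (fun hd => ?_) (fun _ => ⟨j0, mp1 _ qI1⟩))
      _ _ _ _ hT.2.2.1 (by simp)
    obtain ⟨j, hj⟩ := qI0 hd
    exact ⟨j, mp0 _ hj⟩
  have hpar := DZ_parent r (fun j => mp φ (g j)) a0 n0 a1 n1 m hm (fun c j => gcC φ (gc 0) c j)
    (fun j => mp φ (gI j)) (fun c j => gcC_eq φ (hgc 0) c j) (chI_mp φ hgI) j0 hP0 T0 Tc TI
  intro h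
  exact hD (hpar (Or.inr (Or.inl ⟨c, hc, h⟩)))

end Class

section SpecOf

theorem spec_of' (φ : ℚ_[p] →+* ℂ) (T0 : ℂ) (P : Polynomial ℚ_[p]) (hP : P ≠ 0)
    (m a0 n0 a1 n1 : ℕ)
    (hdeg : (P.map φ).natDegree ≤ m)
    (hA0 : ¬ Crit p T0 (a1 + (P.map φ).rootMultiplicity 0) n1)
    (hAI : ¬ Crit p T0 (a0 + (m - (P.map φ).natDegree)) n0)
    (hAc : ∀ c : ℂ, ¬ Crit p T0 ((P.map φ).rootMultiplicity c) 1)
    (T : Finset ℂ) (hT : ∀ c, c ∈ T ↔ c ≠ 0 ∧ (P.map φ).rootMultiplicity c ≠ 0)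
    (hrat : ∀ c ∈ T, ∃ x : ℚ_[p], φ x = c)
    (hcard : T.card ≤ 2)
    (h1 : T.card = 1 → (a0 + (m - (P.map φ).natDegree) = 0 ∧ n0 = 1) ∨
          (a1 + (P.map φ).rootMultiplicity 0 = 0 ∧ n1 = 1))
    (h2 : T.card = 2 → (a0 + (m - (P.map φ).natDegree) = 0 ∧ n0 = 1) ∧
          (a1 + (P.map φ).rootMultiplicity 0 = 0 ∧ n1 = 1))
    (hsum : (P.map φ).rootMultiplicity 0 + ∑ c ∈ T, (P.map φ).rootMultiplicity c =
          (P.map φ).natDegree) :
    ∃ (γ : ℚ_[p]) (μ0 : ℕ) (T' : Finset ℚ_[p]) (μ : ℚ_[p] → ℕ),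
      Spec T0 P m a0 n0 a1 n1 γ μ0 T' μ := by
  classical
  have hPm : P.map φ ≠ 0 := by rwa [Ne, Polynomial.map_eq_zero]
  have hinj : Function.Injective φ := φ.injective
  set T' : Finset ℚ_[p] := T.preimage φ hinj.injOn with hT'
  have himg : T'.image φ = T := by
    ext c
    rw [Finset.mem_image]
    constructor
    · rintro ⟨x, hx, rfl⟩
      rwa [hT', Finset.mem_preimage] at hx
    · intro hc
      obtain ⟨x, rfl⟩ := hrat c hc
      exact ⟨x, by rw [hT', Finset.mem_preimage]; exact hc, rfl⟩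
  have hcardT : T'.card = T.card := by rw [← himg, Finset.card_image_of_injective _ hinj]
  set μ : ℚ_[p] → ℕ := fun x => (P.map φ).rootMultiplicity (φ x) with hμ
  have hsumT : ∑ c ∈ T', μ c = ∑ c ∈ T, (P.map φ).rootMultiplicity c := by
    rw [← himg, Finset.sum_image (fun x _ y _ h => hinj h)]
  have h0T : (0 : ℂ) ∉ T := fun h => ((hT 0).1 h).1 rfl
  have hprod : P.map φ = C (φ P.leadingCoeff) * (X ^ (P.map φ).rootMultiplicity 0 *
      ∏ c ∈ T', (X - C (φ c)) ^ μ c) := by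
    have h3 := (IsAlgClosed.splits (P.map φ)).eq_prod_roots
    rw [prod_multiset_root_eq_finset_root, leadingCoeff_map] at h3
    conv_lhs => rw [h3]
    congr 1
    have h4 : ∏ a ∈ (P.map φ).roots.toFinset, (X - C a) ^ (P.map φ).rootMultiplicity a =
        ∏ a ∈ insert 0 T, (X - C a) ^ (P.map φ).rootMultiplicity a := by
      refine Finset.prod_subset_one_on_sdiff ?_ ?_ (fun _ _ => rfl)
      · intro x hx
        rw [Multiset.mem_toFinset, mem_roots hPm] at hx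
        rw [Finset.mem_insert]
        by_cases h0 : x = 0
        · exact Or.inl h0
        · exact Or.inr ((hT x).2 ⟨h0, ((rootMultiplicity_pos hPm).2 hx).ne'⟩)
      · intro x hx
        rw [Finset.mem_sdiff, Multiset.mem_toFinset, mem_roots hPm] at hx
        rw [rootMultiplicity_eq_zero hx.2, pow_zero]
    rw [h4, Finset.prod_insert h0T, map_zero, sub_zero, ← himg,
      Finset.prod_image (fun x _ y _ h => hinj h)]
  have hPeq : P = C P.leadingCoeff * (X ^ (P.map φ).rootMultiplicity 0 *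
      ∏ c ∈ T', (X - C c) ^ μ c) := by
    apply Polynomial.map_injective φ hinj
    conv_lhs => rw [hprod]
    simp only [Polynomial.map_mul, Polynomial.map_C, Polynomial.map_pow, Polynomial.map_X,
      Polynomial.map_prod, Polynomial.map_sub]
  have hdd : (P.map φ).rootMultiplicity 0 + ∑ c ∈ T', μ c = (P.map φ).natDegree := by
    rw [hsumT, hsum]
  refine ⟨P.leadingCoeff, (P.map φ).rootMultiplicity 0, T', μ,
    { hγ := leadingCoeff_ne_zero.2 hP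
      hP := hPeq
      h0T := by
        rw [hT', Finset.mem_preimage, map_zero]
        exact h0T
      hdeg := by rw [hdd]; exact hdeg
      hI := by rw [hdd]; exact hAI
      h0 := hA0
      hc := fun c _ => hAc (φ c)
      hcard := by rw [hcardT]; exact hcard
      h1 := by rw [hcardT, hdd]; exact h1
      h2 := by rw [hcardT, hdd]; exact h2 }⟩

theorem spec_CR (φ : ℚ_[p] →+* ℂ) (hT : ‖T0‖ = p) (hne : T0 ≠ p)
    (g : Fin 1 → A ℚ_[p]) (d0 d1 : Bool) (a0 n0 a1 n1 m : ℕ) (gc : ℚ_[p] → Fin 1 → A ℚ_[p])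
    (gI : Fin 1 → A ℚ_[p]) (hm : 1 ≤ m)
    (hgc : ∀ c j, MvPolynomial.aeval (ch c) (g j) = MvPolynomial.X 0 ^ m * gc c j)
    (hgI : ∀ j, MvPolynomial.aeval chI (g j) = MvPolynomial.X 1 ^ m * gI j)
    (hne' : ∃ j, r0 (gc 0 j) ≠ 0) (hCR : CR T0 g d0 d1 a0 n0 a1 n1)
    (hDC : DC φ (-1) g d0 d1 a0 n0 a1 n1) (hcrit : Crit p T0 (a0 + a1 + m) (n0 + n1)) :
    ∃ (γ : ℚ_[p]) (μ0 : ℕ) (T : Finset ℚ_[p]) (μ : ℚ_[p] → ℕ),
      Spec T0 (r0 (gc 0 0)) m a0 n0 a1 n1 γ μ0 T μ := by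
  classical
  obtain ⟨⟨hn0, hn1, hd0, hd1⟩, hle0, hle1, hnc, -⟩ := hCR
  have hj0 : r0 (gc 0 0) ≠ 0 := by
    obtain ⟨j, hj⟩ := hne'
    rwa [Subsingleton.elim j 0] at hj
  set P := r0 (gc 0 0) with hPdef
  have hPm : P.map φ ≠ 0 := by rwa [Ne, Polynomial.map_eq_zero]
  have hdegm : (P.map φ).natDegree ≤ m := by
    rw [natDegree_map, hPdef, r0_lead (hgc 0 0)]
    exact om_deg _ _
  set T : Finset ℂ := (P.map φ).roots.toFinset.erase 0 with hTdef
  have hTmem : ∀ c, c ∈ T ↔ c ≠ 0 ∧ (P.map φ).rootMultiplicity c ≠ 0 := by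
    intro c
    rw [hTdef, Finset.mem_erase, Multiset.mem_toFinset, mem_roots hPm,
      ← rootMultiplicity_pos hPm, Nat.pos_iff_ne_zero]
  have h0T : (0 : ℂ) ∉ T := fun h => ((hTmem 0).1 h).1 rfl
  have hsum : (P.map φ).rootMultiplicity 0 + ∑ c ∈ T, (P.map φ).rootMultiplicity c =
      (P.map φ).natDegree := by
    rw [← sum_mult (P.map φ) hPm (insert 0 T) ?_, Finset.sum_insert h0T]
    intro c hc h
    apply hc
    rw [Finset.mem_insert]
    by_cases hc0 : c = 0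
    · exact Or.inl hc0
    · exact Or.inr ((hTmem c).2 ⟨hc0, ((rootMultiplicity_pos hPm).2 h).ne'⟩)
  have heq := crit_eq hT hcrit
  have hcardle : T.card ≤ ∑ c ∈ T, (P.map φ).rootMultiplicity c := by
    rw [Finset.card_eq_sum_ones]
    refine Finset.sum_le_sum fun c hc => ?_
    have := ((hTmem c).1 hc).2
    omega
  have hb0 : (a0 = 0 ∧ n0 = 1) ∨ n0 ≤ a0 := by
    rcases Bool.eq_false_or_eq_true d0 with e | e
    · exact Or.inr (hle0 e)
    · exact Or.inl (hd0 e)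
  have hb1 : (a1 = 0 ∧ n1 = 1) ∨ n1 ≤ a1 := by
    rcases Bool.eq_false_or_eq_true d1 with e | e
    · exact Or.inr (hle1 e)
    · exact Or.inl (hd1 e)
  have hAI : ¬ Crit p T0 (a0 + (m - (P.map φ).natDegree)) n0 := by
    intro h
    have e := crit_eq hT h
    rcases hb0 with h3 | h3
    · rw [h3.2] at h
      exact not_crit1 hT hne _ h
    · have h4 : m - (P.map φ).natDegree = 0 := by omega
      rw [h4, add_zero] at h
      refine ncE hT hne hm hd1 hle1 h ?_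
      rw [← add_assoc]
      exact hcrit
  have hA0 : ¬ Crit p T0 (a1 + (P.map φ).rootMultiplicity 0) n1 := by
    intro h
    have e := crit_eq hT h
    rcases hb1 with h3 | h3
    · rw [h3.2] at h
      exact not_crit1 hT hne _ h
    · have h4 : (P.map φ).rootMultiplicity 0 = 0 := by omega
      rw [h4, add_zero] at h
      refine ncE hT hne hm hd0 hle0 h ?_
      have e1 : a1 + (a0 + m) = a0 + a1 + m := by ring
      rw [e1, add_comm n1 n0]
      exact hcrit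
  generalize hS : ∑ c ∈ T, (P.map φ).rootMultiplicity c = S at hsum hcardle
  have hS' := hS
  have hrat : ∀ c ∈ T, ∃ x : ℚ_[p], φ x = c := by
    intro c hc
    by_contra hno
    push Not at hno
    have hc2 := (hTmem c).1 hc
    have hroot : (P.map φ).IsRoot c := by
      by_contra h
      exact hc2.2 (rootMultiplicity_eq_zero h)
    obtain ⟨c', h3, h4, h5⟩ := exists_conj φ P hj0 c hroot hno
    have hc' : c' ∈ T := (hTmem c').2 ⟨h4, by rw [h5]; exact hc2.2⟩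
    have h6 : ({c, c'} : Finset ℂ) ⊆ T := by
      intro x hx
      rw [Finset.mem_insert, Finset.mem_singleton] at hx
      rcases hx with rfl | rfl
      · exact hc
      · exact hc'
    have h7 : (P.map φ).rootMultiplicity c + (P.map φ).rootMultiplicity c' ≤ S := by
      rw [← hS, ← Finset.sum_pair (f := fun c => (P.map φ).rootMultiplicity c) h3.symm]
      exact Finset.sum_le_sum_of_subset h6
    have h8 : (P.map φ).rootMultiplicity c = 1 := by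
      have := hc2.2
      omega
    have h9 : a0 + a1 + m = 2 ∧ n0 + n1 = 2 := by omega
    have hres : res0 (gcC φ (gc 0) c 0) = (P.map φ).comp (X + C c) := by
      rw [res0_chart (mp φ (g 0)) (gcC φ (gc 0) 0 0) (gcC φ (gc 0) c 0) m c
        (gcC_eq φ (hgc 0) 0 0) (gcC_eq φ (hgc 0) c 0), gcC_0 φ hgc, ← mp_r0]
    obtain ⟨k1, k2⟩ := ord_comp (P.map φ) hPm c
    rw [h8] at k1 k2
    refine dz_child φ (-1) hm hgc hgI hne' hDC c hc2.1
      ⟨_, LT.curveV _ (a0 + a1 + m) (n0 + n1) 1 le_rfl (gcC φ (gc 0) c 0) (fun _ => 1) ?_ ?_ ?_ 0 ?_,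
        _, rfl, ?_, ?_⟩
    · intro j
      rw [Subsingleton.elim j 0, pow_one, mul_one]
    · rw [← coeff_res0, hres]
      exact k1 0 Nat.zero_lt_one
    · have e : MvPolynomial.constantCoeff (MvPolynomial.pderiv 1 (gcC φ (gc 0) c 0)) =
          (res0 (gcC φ (gc 0) c 0)).coeff 1 := by
        rw [cc_pd1, ← r0_coeff]
        rfl
      rw [e, hres]
      exact k2
    · rw [map_one]
      exact one_ne_zero
    · change ((n0 + n1 : ℕ) : ℂ) + ((a0 + a1 + m : ℕ) : ℂ) * (-1) = 0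
      rw [h9.1, h9.2]
      ring
    · change ((1 : ℕ) : ℂ) + ((1 : ℕ) : ℂ) * (-1) = 0
      ring
  refine spec_of' φ T0 P hj0 m a0 n0 a1 n1 hdegm hA0 hAI (fun c => not_crit1 hT hne _) T hTmem hrat
    ?_ ?_ ?_ (by rw [hS]; exact hsum)
  · omega
  · intro h
    omega
  · intro h
    omega

end SpecOf

section Loc

theorem ne0_of (hT : ‖T0‖ = p) : T0 ≠ 0 := by
  rintro rfl
  rw [norm_zero] at hT
  exact (Fact.out : p.Prime).ne_zero (by exact_mod_cast hT.symm)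

theorem tc0 (g : Fin 1 → A ℚ_[p]) : TC g false false 0 1 0 1 :=
  ⟨le_rfl, le_rfl, fun _ => ⟨rfl, rfl⟩, fun _ => ⟨rfl, rfl⟩⟩

/-- the order of the pole at a singular point -/
theorem sing1 (hT : ‖T0‖ = p) (hne : T0 ≠ p) (g : Fin 1 → A ℚ_[p]) (hg : ∃ j, g j ≠ 0)
    (s0 : MvPolynomial.constantCoeff (MvPolynomial.pderiv 0 (g 0)) = 0)
    (s1 : MvPolynomial.constantCoeff (MvPolynomial.pderiv 1 (g 0)) = 0) :
    LReg T0 1 (Zc (Hn g 0 1 0 1)) (0, 0) := by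
  have hTT : KT g false false := exists_KT g false false hg (by simp) (by simp)
  refine main_M (ne0_of hT) 1 (CR T0) (closed_CR hT hne) ?_ ?_ ?_ hTT 0 1 0 1
    ⟨tc0 g, by simp, by simp, fun h => not_crit01 h.1, fun _ _ => ⟨s0, s1⟩⟩
  · intro g d0 d1 a0 n0 a1 n1 hc j hj
    exact Or.inr (Or.inl ⟨rfl, not_and_or.1 hc.2.2.2.1⟩)
  · intro g d0 a0 n0 m hm hc h κ hg h0 h1 j hj
    exact Or.inr (Or.inl ⟨rfl, Or.inr (not_crit1 hT hne m)⟩)
  · intro g d1 a1 n1 m hm hc h κ hg h0 h1 j hj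
    exact Or.inr (Or.inl ⟨rfl, Or.inr (not_crit1 hT hne m)⟩)

/-- no pole at a singular point without a crossing of critical curves -/
theorem singC (φ : ℚ_[p] →+* ℂ) (hT : ‖T0‖ = p) (hne : T0 ≠ p) (g : Fin 1 → A ℚ_[p])
    (hg : ∃ j, g j ≠ 0)
    (s0 : MvPolynomial.constantCoeff (MvPolynomial.pderiv 0 (g 0)) = 0)
    (s1 : MvPolynomial.constantCoeff (MvPolynomial.pderiv 1 (g 0)) = 0)
    (hDZ : ¬ DZ (-1) (fun j => mp φ (g j)) 0 1 0 1) :
    LReg T0 0 (Zc (Hn g 0 1 0 1)) (0, 0) := by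
  have hTT : KT g false false := exists_KT g false false hg (by simp) (by simp)
  have hCC := main_C (ne0_of hT)
    (fun g d0 d1 a0 n0 a1 n1 => CR T0 g d0 d1 a0 n0 a1 n1 ∧ DC φ (-1) g d0 d1 a0 n0 a1 n1)
    (closed_and (closed_CR hT hne) (closed_DC φ (-1)))
    (fun g d0 d1 a0 n0 a1 n1 hc j hj => hc.1.2.2.2.1)
    (fun g d0 a0 n0 m hm hc h κ hg h0 h1 j hj => not_crit1 hT hne m)
    (fun g d1 a1 n1 m hm hc h κ hg h0 h1 j hj => not_crit1 hT hne m)
    (fun g d0 d1 a0 n0 a1 n1 m gc gI hm hgc hgI hne' hc hcrit => by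
      obtain ⟨γ, μ0, T, μ, hS⟩ := spec_CR φ hT hne g d0 d1 a0 n0 a1 n1 m gc gI hm hgc hgI hne'
        hc.1 hc.2 hcrit
      refine ⟨fun _ => 1, r0 (gc 0 0), γ, μ0, T, μ, fun j => ?_, hS⟩
      rw [Subsingleton.elim j 0, map_one, one_mul])
    (fun g d0 d1 a0 n0 a1 n1 hc hcrit ρ _ => hH0_CR hT hne hc.1 hcrit ρ)
    (fun g d0 d1 a0 n0 a1 n1 hc hcrit ρ _ => hH1_CR hT hne hc.1 hcrit ρ)
    hTT 0 1 0 1 ⟨⟨tc0 g, by simp, by simp, fun h => not_crit01 h.1, fun _ _ => ⟨s0, s1⟩⟩,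
      ⟨tc0 g, hDZ, hg, by simp, by simp⟩⟩
  refine (hCC 0 0 (fun h => absurd h not_crit01) (fun h => absurd h not_crit01)).congr
    isOpen_univ trivial fun C _ _ s _ => ?_
  rw [crr_false not_crit01, crr_false not_crit01, sub_zero, sub_zero]

/-- no pole at a smooth point -/
theorem smooth (hT : ‖T0‖ = p) (hne : T0 ≠ p) (g : Fin 1 → A ℚ_[p])
    (hs : ¬ (MvPolynomial.constantCoeff (MvPolynomial.pderiv 0 (g 0)) = 0 ∧
      MvPolynomial.constantCoeff (MvPolynomial.pderiv 1 (g 0)) = 0)) :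
    LReg T0 0 (Zc (Hn g 0 1 0 1)) (0, 0) := by
  have hT0 := ne0_of hT
  have hgg : ∀ j, g j = g 0 ^ 1 * (fun _ : Fin 1 => (1 : A ℚ_[p])) j := by
    intro j
    rw [Subsingleton.elim j 0, pow_one, mul_one]
  have h1 : MvPolynomial.constantCoeff ((fun _ : Fin 1 => (1 : A ℚ_[p])) 0) ≠ 0 := by
    rw [map_one]
    exact one_ne_zero
  by_cases hu : MvPolynomial.constantCoeff (g 0) = 0
  · by_cases h0 : MvPolynomial.constantCoeff (MvPolynomial.pderiv 1 (g 0)) = 0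
    · have h3 : MvPolynomial.constantCoeff (MvPolynomial.pderiv 0 (g 0)) ≠ 0 := fun h =>
        hs ⟨h, h0⟩
      exact LM_curveU hT0 g 1 (g 0) (fun _ => 1) hgg hu h3 0 h1 le_rfl
        (Or.inr (Or.inr ⟨rfl, not_crit01, not_crit1 hT hne 1⟩))
    · exact LM_curveV hT0 g 1 (g 0) (fun _ => 1) hgg hu h0 0 h1 le_rfl
        (Or.inr (Or.inr ⟨rfl, not_crit01, not_crit1 hT hne 1⟩))
  · exact LM_unit hT0 g 0 hu le_rfl le_rfl (Or.inr (Or.inr ⟨rfl, not_crit01, not_crit01⟩))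

end Loc

/-- **Job R.** -/
theorem tR : Pool.Agent.Y230.TH.StR := by
  intro p _ φ g hg T0 hT hne
  set f : Fin 1 → A ℚ_[p] := fun _ => g with hf
  have hfne : ∃ j, f j ≠ 0 := ⟨0, hg⟩
  have hA : ∀ P : Fin 2 → ℚ_[p], LReg T0 1 (Zc (Hn (nd f P) 0 1 0 1)) (0, 0) := by
    intro P
    by_cases hs : MvPolynomial.constantCoeff (MvPolynomial.pderiv 0 (nd f P 0)) = 0 ∧
      MvPolynomial.constantCoeff (MvPolynomial.pderiv 1 (nd f P 0)) = 0
    · exact sing1 hT hne _ (tr_ne_zero f P hfne) hs.1 hs.2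
    · exact (smooth hT hne _ hs).mono (Nat.zero_le _)
  have hB : ∀ P : Fin 2 → ℚ_[p], ¬ DZ (-1) (fun j => mp φ (nd f P j)) 0 1 0 1 →
      LReg T0 0 (Zc (Hn (nd f P) 0 1 0 1)) (0, 0) := by
    intro P hP
    by_cases hs : MvPolynomial.constantCoeff (MvPolynomial.pderiv 0 (nd f P 0)) = 0 ∧
      MvPolynomial.constantCoeff (MvPolynomial.pderiv 1 (nd f P 0)) = 0
    · exact singC φ hT hne _ (tr_ne_zero f P hfne) hs.1 hs.2 hP
    · exact smooth hT hne _ hs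
  by_cases h : ∃ P : Fin 2 → ℚ_[p], DZ (-1) (fun j => mp φ (nd f P j)) 0 1 0 1
  · right
    refine ⟨LReg.glue (addF_Zc (ok_Hn f 0 1 0 1)) CO_ub fun x _ => lreg_pt f x
      (hA ![x.1, x.2]), ?_⟩
    intro b hb
    obtain ⟨P, Λ, hΛ, hz⟩ := h
    have h4 : (fun j => mp φ (nd f P j)) = fun j => W574.SM.translate (fun i => φ (P i))
        (mp φ (f j)) := by
      funext j
      exact mp_tr φ P (f j)
    rw [h4] at hΛ
    exact zc_root (fun j => mp φ (f j)) b hb (fun i => φ (P i)) (-1) hΛ hz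
  · left
    push Not at h
    exact LReg.glue (addF_Zc (ok_Hn f 0 1 0 1)) CO_ub fun x _ => lreg_pt f x
      (hB ![x.1, x.2] (h _))

end Pool.Agent.Y465.TH
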